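import Mathlib

/-!
# A slowly varying majorant of a polynomial

For a polynomial `P` in finitely many variables, `Psi P h x` is the sum of the absolute values of
the coefficients of `u ↦ P (x + h u)`.  It majorises `|P x|`, changes by at most the constant
factor `2 ^ deg P` when `x` moves by at most `h` in each coordinate, and its terms are absolute
values of polynomials in `x`.
-/

set_option autoImplicit false

namespace Pool.KAL

open Finset MvPolynomial

section general

variable {σ τ : Type*}

/-- The sum of the absolute values of the coefficients. -/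
noncomputable def coefSum (P : MvPolynomial σ ℝ) : ℝ := ∑ α ∈ P.support, |coeff α P|

theorem coefSum_nonneg (P : MvPolynomial σ ℝ) : 0 ≤ coefSum P :=
  Finset.sum_nonneg fun _ _ => abs_nonneg _

theorem coefSum_eq_of_subset (P : MvPolynomial σ ℝ) (s : Finset (σ →₀ ℕ)) (h : P.support ⊆ s) :
    coefSum P = ∑ α ∈ s, |coeff α P| := by
  unfold coefSum
  refine Finset.sum_subset h ?_
  intro α _ hα
  rw [notMem_support_iff] at hα
  rw [hα, abs_zero]

theorem coefSum_le_of_subset (P : MvPolynomial σ ℝ) (s : Finset (σ →₀ ℕ)) :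
    ∑ α ∈ s, |coeff α P| ≤ coefSum P := by
  classical
  rw [coefSum_eq_of_subset P (s ∪ P.support) Finset.subset_union_right]
  exact Finset.sum_le_sum_of_subset_of_nonneg Finset.subset_union_left
    fun _ _ _ => abs_nonneg _

theorem abs_coeff_le (P : MvPolynomial σ ℝ) (α : σ →₀ ℕ) : |coeff α P| ≤ coefSum P := by
  have := coefSum_le_of_subset P {α}
  simpa using this

theorem coefSum_add_le (P Q : MvPolynomial σ ℝ) : coefSum (P + Q) ≤ coefSum P + coefSum Q := by
  classical
  rw [coefSum_eq_of_subset P (P.support ∪ Q.support) Finset.subset_union_left,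
    coefSum_eq_of_subset Q (P.support ∪ Q.support) Finset.subset_union_right,
    coefSum_eq_of_subset (P + Q) (P.support ∪ Q.support) support_add, ← Finset.sum_add_distrib]
  refine Finset.sum_le_sum ?_
  intro α _
  rw [coeff_add]
  exact abs_add_le _ _

@[simp] theorem coefSum_zero : coefSum (0 : MvPolynomial σ ℝ) = 0 := by
  simp [coefSum]

theorem coefSum_sum_le {ι : Type*} (s : Finset ι) (f : ι → MvPolynomial σ ℝ) :
    coefSum (∑ i ∈ s, f i) ≤ ∑ i ∈ s, coefSum (f i) := by
  classical
  induction s using Finset.induction_on with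
  | empty => simp
  | insert a s ha ih =>
    rw [Finset.sum_insert ha, Finset.sum_insert ha]
    exact (coefSum_add_le _ _).trans (by linarith)

theorem coefSum_monomial (α : σ →₀ ℕ) (r : ℝ) : coefSum (monomial α r) = |r| := by
  classical
  rw [coefSum_eq_of_subset (monomial α r) {α} support_monomial_subset]
  simp

@[simp] theorem coefSum_C (r : ℝ) : coefSum (C r : MvPolynomial σ ℝ) = |r| :=
  coefSum_monomial 0 r

@[simp] theorem coefSum_one : coefSum (1 : MvPolynomial σ ℝ) = 1 := by
  rw [← C_1, coefSum_C, abs_one]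

@[simp] theorem coefSum_X (i : σ) : coefSum (X i : MvPolynomial σ ℝ) = 1 := by
  have := coefSum_monomial (Finsupp.single i 1) (1 : ℝ)
  simpa [X] using this

@[simp] theorem coefSum_neg (P : MvPolynomial σ ℝ) : coefSum (-P) = coefSum P := by
  unfold coefSum
  rw [support_neg]
  simp

theorem coefSum_eq_zero_iff (P : MvPolynomial σ ℝ) : coefSum P = 0 ↔ P = 0 := by
  constructor
  · intro h
    ext α
    have := abs_coeff_le P α
    rw [h] at this
    have h0 : |coeff α P| = 0 := le_antisymm this (abs_nonneg _)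
    rw [abs_eq_zero.1 h0, coeff_zero]
  · rintro rfl
    exact coefSum_zero

theorem coefSum_pos {P : MvPolynomial σ ℝ} (h : P ≠ 0) : 0 < coefSum P :=
  lt_of_le_of_ne (coefSum_nonneg P) fun h0 => h ((coefSum_eq_zero_iff P).1 h0.symm)

theorem coefSum_monomial_mul_le (α : σ →₀ ℕ) (r : ℝ) (Q : MvPolynomial σ ℝ) :
    coefSum (monomial α r * Q) ≤ |r| * coefSum Q := by
  classical
  conv_lhs => rw [Q.as_sum, Finset.mul_sum]
  refine (coefSum_sum_le _ _).trans ?_
  unfold coefSum
  rw [Finset.mul_sum]
  refine Finset.sum_le_sum ?_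
  intro β _
  rw [monomial_mul]
  have := coefSum_monomial (α + β) (r * coeff β Q)
  unfold coefSum at this
  rw [this, abs_mul]

theorem coefSum_mul_le (P Q : MvPolynomial σ ℝ) : coefSum (P * Q) ≤ coefSum P * coefSum Q := by
  classical
  conv_lhs => rw [P.as_sum, Finset.sum_mul]
  refine (coefSum_sum_le _ _).trans ?_
  have : coefSum P * coefSum Q = ∑ α ∈ P.support, |coeff α P| * coefSum Q := by
    unfold coefSum
    rw [Finset.sum_mul]
  rw [this]
  exact Finset.sum_le_sum fun α _ => coefSum_monomial_mul_le _ _ _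

theorem coefSum_C_mul (r : ℝ) (Q : MvPolynomial σ ℝ) : coefSum (C r * Q) = |r| * coefSum Q := by
  classical
  rw [coefSum_eq_of_subset (C r * Q) Q.support]
  · unfold coefSum
    rw [Finset.mul_sum]
    refine Finset.sum_congr rfl fun α _ => ?_
    rw [coeff_C_mul, abs_mul]
  · intro α hα
    rw [mem_support_iff, coeff_C_mul] at hα
    rw [mem_support_iff]
    exact right_ne_zero_of_mul hα

theorem coefSum_pow_le (P : MvPolynomial σ ℝ) (k : ℕ) : coefSum (P ^ k) ≤ coefSum P ^ k := by
  induction k with
  | zero => rw [pow_zero, pow_zero, coefSum_one]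
  | succ k ih =>
    rw [pow_succ, pow_succ]
    exact (coefSum_mul_le _ _).trans (mul_le_mul_of_nonneg_right ih (coefSum_nonneg _))

theorem coefSum_prod_le {ι : Type*} (s : Finset ι) (f : ι → MvPolynomial σ ℝ) :
    coefSum (∏ i ∈ s, f i) ≤ ∏ i ∈ s, coefSum (f i) := by
  classical
  induction s using Finset.induction_on with
  | empty => rw [Finset.prod_empty, Finset.prod_empty, coefSum_one]
  | insert a s ha ih =>
    rw [Finset.prod_insert ha, Finset.prod_insert ha]
    exact (coefSum_mul_le _ _).trans (mul_le_mul_of_nonneg_left ih (coefSum_nonneg _))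

/-- Evaluation on the unit cube is at most the sum of the coefficients. -/
theorem abs_eval_le_coefSum (P : MvPolynomial σ ℝ) (u : σ → ℝ) (hu : ∀ i, |u i| ≤ 1) :
    |eval u P| ≤ coefSum P := by
  classical
  rw [eval_eq]
  unfold coefSum
  refine (Finset.abs_sum_le_sum_abs _ _).trans (Finset.sum_le_sum ?_)
  intro α _
  rw [abs_mul, Finset.abs_prod]
  have : ∏ i ∈ α.support, |u i ^ α i| ≤ 1 := by
    refine Finset.prod_le_one (fun _ _ => abs_nonneg _) ?_
    intro i _
    rw [abs_pow]
    exact pow_le_one₀ (abs_nonneg _) (hu i)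
  nlinarith [abs_nonneg (coeff α P)]

/-- Substituting polynomials of small coefficient sum. -/
theorem coefSum_aeval_le (P : MvPolynomial σ ℝ) (f : σ → MvPolynomial τ ℝ) (M : ℝ) (hM : 1 ≤ M)
    (hf : ∀ i, coefSum (f i) ≤ M) :
    coefSum (aeval f P) ≤ M ^ P.totalDegree * coefSum P := by
  classical
  have h1 : aeval f P = ∑ α ∈ P.support, C (coeff α P) * ∏ i ∈ α.support, f i ^ α i := by
    rw [aeval_def, eval₂_eq]
    rfl
  rw [h1]
  refine (coefSum_sum_le _ _).trans ?_
  have h2 : M ^ P.totalDegree * coefSum P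
      = ∑ α ∈ P.support, |coeff α P| * M ^ P.totalDegree := by
    unfold coefSum
    rw [mul_comm, Finset.sum_mul]
  rw [h2]
  refine Finset.sum_le_sum ?_
  intro α hα
  rw [coefSum_C_mul]
  refine mul_le_mul_of_nonneg_left ?_ (abs_nonneg _)
  refine (coefSum_prod_le _ _).trans ?_
  have h3 : ∏ i ∈ α.support, coefSum (f i ^ α i) ≤ ∏ i ∈ α.support, M ^ α i := by
    refine Finset.prod_le_prod (fun _ _ => coefSum_nonneg _) ?_
    intro i _
    exact (coefSum_pow_le _ _).trans (pow_le_pow_left₀ (coefSum_nonneg _) (hf i) _)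
  refine h3.trans ?_
  rw [Finset.prod_pow_eq_pow_sum]
  exact pow_le_pow_right₀ hM (le_totalDegree hα)

/-! ### The rescaled shift -/

/-- The polynomial `u ↦ P (x + h u)`. -/
noncomputable def shf (P : MvPolynomial σ ℝ) (h : ℝ) (x : σ → ℝ) : MvPolynomial σ ℝ :=
  aeval (fun i => C (x i) + C h * X i) P

theorem eval_shf (P : MvPolynomial σ ℝ) (h : ℝ) (x u : σ → ℝ) :
    eval u (shf P h x) = eval (fun i => x i + h * u i) P := by
  unfold shf
  rw [← coe_aeval_eq_eval, ← coe_aeval_eq_eval]
  rw [RingHom.coe_coe, RingHom.coe_coe, ← AlgHom.comp_apply, comp_aeval]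
  simp

theorem shf_shf (P : MvPolynomial σ ℝ) (h k : ℝ) (x y : σ → ℝ) :
    shf (shf P h x) k y = shf P (h * k) (fun i => x i + h * y i) := by
  unfold shf
  rw [← AlgHom.comp_apply, comp_aeval]
  congr 2
  funext i
  simp only [map_add, map_mul, aeval_X, algHom_C, algebraMap_eq]
  ring

theorem shf_zero_one (P : MvPolynomial σ ℝ) : shf P 1 (fun _ => 0) = P := by
  unfold shf
  have : (fun i : σ => (C (0 : ℝ) + C (1 : ℝ) * X i : MvPolynomial σ ℝ)) = X := by
    funext i
    simp
  rw [this, aeval_X_left]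
  rfl

theorem totalDegree_shf_le (P : MvPolynomial σ ℝ) (h : ℝ) (x : σ → ℝ) :
    (shf P h x).totalDegree ≤ P.totalDegree := by
  classical
  unfold shf
  have h1 : aeval (fun i => C (x i) + C h * X i) P
      = ∑ α ∈ P.support, C (coeff α P) * ∏ i ∈ α.support,
        (C (x i) + C h * X i : MvPolynomial σ ℝ) ^ α i := by
    rw [aeval_def, eval₂_eq]
    rfl
  rw [h1]
  refine totalDegree_finsetSum_le ?_
  intro α hα
  refine (totalDegree_mul _ _).trans ?_
  rw [totalDegree_C, zero_add]
  refine (totalDegree_finsetProd _ _).trans ?_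
  have h2 : ∀ i ∈ α.support,
      ((C (x i) + C h * X i : MvPolynomial σ ℝ) ^ α i).totalDegree ≤ α i := by
    intro i _
    refine (totalDegree_pow _ _).trans ?_
    have h3 : (C (x i) + C h * X i : MvPolynomial σ ℝ).totalDegree ≤ 1 := by
      refine (totalDegree_add _ _).trans ?_
      rw [totalDegree_C]
      refine max_le (Nat.zero_le _) ?_
      refine (totalDegree_mul _ _).trans ?_
      rw [totalDegree_C, totalDegree_X]
    calc α i * _ ≤ α i * 1 := Nat.mul_le_mul_left _ h3
      _ = α i := mul_one _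
  refine (Finset.sum_le_sum h2).trans ?_
  exact le_totalDegree hα

/-- **The slowly varying majorant.** -/
noncomputable def Psi (P : MvPolynomial σ ℝ) (h : ℝ) (x : σ → ℝ) : ℝ := coefSum (shf P h x)

theorem Psi_nonneg (P : MvPolynomial σ ℝ) (h : ℝ) (x : σ → ℝ) : 0 ≤ Psi P h x :=
  coefSum_nonneg _

theorem abs_eval_le_Psi (P : MvPolynomial σ ℝ) (h : ℝ) (x : σ → ℝ) : |eval x P| ≤ Psi P h x := by
  have h1 := abs_eval_le_coefSum (shf P h x) (fun _ => 0) (by simp)
  rw [eval_shf] at h1
  have e : (fun i => x i + h * 0) = x := by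
    funext i
    ring
  rw [e] at h1
  exact h1

/-- On the cube of radius `h` around `x`. -/
theorem abs_eval_le_Psi_of_near (P : MvPolynomial σ ℝ) (h : ℝ) (hh : 0 ≤ h) (x y : σ → ℝ)
    (hxy : ∀ i, |y i - x i| ≤ h) : |eval y P| ≤ Psi P h x := by
  rcases hh.eq_or_lt with rfl | hpos
  · have : y = x := by
      funext i
      have := hxy i
      have h0 : |y i - x i| = 0 := le_antisymm this (abs_nonneg _)
      linarith [abs_eq_zero.1 h0]
    rw [this]
    exact abs_eval_le_Psi P 0 x
  · have h1 := abs_eval_le_coefSum (shf P h x) (fun i => (y i - x i) / h) (by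
      intro i
      rw [abs_div, abs_of_pos hpos, div_le_one hpos]
      exact hxy i)
    rw [eval_shf] at h1
    have : (fun i => x i + h * ((y i - x i) / h)) = y := by
      funext i
      field_simp
      ring
    rw [this] at h1
    exact h1

/-- `Psi` changes by a bounded factor when the point moves by at most the radius. -/
theorem Psi_le_of_near (P : MvPolynomial σ ℝ) (h : ℝ) (hh : 0 ≤ h) (x x' : σ → ℝ)
    (hx : ∀ i, |x' i - x i| ≤ h) :
    Psi P h x' ≤ 2 ^ P.totalDegree * Psi P h x := by
  rcases hh.eq_or_lt with rfl | hpos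
  · have : x' = x := by
      funext i
      have h0 : |x' i - x i| = 0 := le_antisymm (hx i) (abs_nonneg _)
      linarith [abs_eq_zero.1 h0]
    rw [this]
    have h1 : (1 : ℝ) ≤ 2 ^ P.totalDegree := one_le_pow₀ (by norm_num)
    nlinarith [Psi_nonneg P 0 x]
  · have e : shf P h x' = shf (shf P h x) 1 (fun i => (x' i - x i) / h) := by
      rw [shf_shf]
      congr 1
      · ring
      · funext i
        field_simp
        ring
    unfold Psi
    rw [e]
    have h2 := coefSum_aeval_le (shf P h x)
      (fun i => C ((x' i - x i) / h) + C (1 : ℝ) * X i) 2 (by norm_num) (by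
        intro i
        refine (coefSum_add_le _ _).trans ?_
        rw [coefSum_C, C_1, one_mul, coefSum_X, abs_div, abs_of_pos hpos]
        have : |x' i - x i| / h ≤ 1 := by
          rw [div_le_one hpos]
          exact hx i
        linarith)
    refine h2.trans ?_
    refine mul_le_mul_of_nonneg_right ?_ (coefSum_nonneg _)
    exact pow_le_pow_right₀ (by norm_num) (totalDegree_shf_le P h x)

/-- The same with distance at most `M h`. -/
theorem Psi_le_of_dist (P : MvPolynomial σ ℝ) (h M : ℝ) (hh : 0 < h) (hM : 0 ≤ M) (x x' : σ → ℝ)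
    (hx : ∀ i, |x' i - x i| ≤ M * h) :
    Psi P h x' ≤ (1 + M) ^ P.totalDegree * Psi P h x := by
  have e : shf P h x' = shf (shf P h x) 1 (fun i => (x' i - x i) / h) := by
    rw [shf_shf]
    congr 1
    · ring
    · funext i
      field_simp
      ring
  unfold Psi
  rw [e]
  have h2 := coefSum_aeval_le (shf P h x)
    (fun i => C ((x' i - x i) / h) + C (1 : ℝ) * X i) (1 + M) (by linarith) (by
      intro i
      refine (coefSum_add_le _ _).trans ?_
      rw [coefSum_C, C_1, one_mul, coefSum_X, abs_div, abs_of_pos hh]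
      have : |x' i - x i| / h ≤ M := by
        rw [div_le_iff₀ hh]
        exact hx i
      linarith)
  refine h2.trans ?_
  refine mul_le_mul_of_nonneg_right ?_ (coefSum_nonneg _)
  exact pow_le_pow_right₀ (by linarith) (totalDegree_shf_le P h x)

theorem shf_scale (P : MvPolynomial σ ℝ) (h k : ℝ) (x : σ → ℝ) :
    shf P (h * k) x = shf (shf P h x) k (fun _ => 0) := by
  rw [shf_shf]
  congr 1
  funext i
  ring

/-- `Psi` is monotone in the radius. -/
theorem Psi_mono (P : MvPolynomial σ ℝ) (h h' : ℝ) (hh : 0 ≤ h) (hle : h ≤ h') (x : σ → ℝ) :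
    Psi P h x ≤ Psi P h' x := by
  rcases (hh.trans hle).eq_or_lt with h0 | hpos
  · have : h = h' := le_antisymm hle (by linarith)
    rw [this]
  · have e : h = h' * (h / h') := by field_simp
    unfold Psi
    rw [e, shf_scale]
    have h2 := coefSum_aeval_le (shf P h' x)
      (fun i => C (0 : ℝ) + C (h / h') * X i) 1 le_rfl (by
        intro i
        refine (coefSum_add_le _ _).trans ?_
        rw [coefSum_C, coefSum_C_mul, coefSum_X, abs_zero, zero_add, mul_one, abs_div,
          abs_of_pos hpos, abs_of_nonneg hh]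
        exact (div_le_one hpos).2 hle)
    rw [one_pow, one_mul] at h2
    exact h2

/-- Growth in the radius. -/
theorem Psi_radius_le (P : MvPolynomial σ ℝ) (h M : ℝ) (hM : 1 ≤ M) (x : σ → ℝ) :
    Psi P (h * M) x ≤ M ^ P.totalDegree * Psi P h x := by
  unfold Psi
  rw [shf_scale]
  have h2 := coefSum_aeval_le (shf P h x)
    (fun i => C (0 : ℝ) + C M * X i) M hM (by
      intro i
      refine (coefSum_add_le _ _).trans ?_
      rw [coefSum_C, coefSum_C_mul, coefSum_X, abs_zero, zero_add, mul_one,
        abs_of_nonneg (by linarith)])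
  refine h2.trans ?_
  refine mul_le_mul_of_nonneg_right ?_ (coefSum_nonneg _)
  exact pow_le_pow_right₀ hM (totalDegree_shf_le P h x)

/-- **Lower bound**: `Psi` at radius `h` is at least a power of `h` times the coefficient sum of
`P`. -/
theorem Psi_lower (P : MvPolynomial σ ℝ) (h : ℝ) (hh : 0 < h) (h1 : h ≤ 1) (x : σ → ℝ)
    (R : ℝ) (hR : 0 ≤ R) (hx : ∀ i, |x i| ≤ R) :
    (h / (1 + R)) ^ P.totalDegree * coefSum P ≤ Psi P h x := by
  have a1 : Psi P 1 x ≤ (1 / h) ^ P.totalDegree * Psi P h x := by
    have := Psi_radius_le P h (1 / h) (by rw [le_div_iff₀ hh]; linarith) x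
    have e : h * (1 / h) = 1 := by field_simp
    rw [e] at this
    exact this
  have a2 : Psi P 1 (fun _ => 0) ≤ (1 + R) ^ P.totalDegree * Psi P 1 x := by
    refine Psi_le_of_dist P 1 R one_pos hR x (fun _ => 0) ?_
    intro i
    simpa using hx i
  have a3 : Psi P 1 (fun _ => 0) = coefSum P := by
    unfold Psi
    rw [shf_zero_one]
  rw [a3] at a2
  have hp : 0 < (1 + R) ^ P.totalDegree := by positivity
  have hq : 0 < h ^ P.totalDegree := by positivity
  have a4 : coefSum P ≤ (1 + R) ^ P.totalDegree * ((1 / h) ^ P.totalDegree * Psi P h x) :=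
    a2.trans (mul_le_mul_of_nonneg_left a1 hp.le)
  rw [div_pow, div_mul_eq_mul_div, div_le_iff₀ hp]
  calc h ^ P.totalDegree * coefSum P
      ≤ h ^ P.totalDegree * ((1 + R) ^ P.totalDegree * ((1 / h) ^ P.totalDegree * Psi P h x)) :=
        mul_le_mul_of_nonneg_left a4 hq.le
    _ = Psi P h x * (1 + R) ^ P.totalDegree := by
        rw [one_div, inv_pow]
        field_simp

theorem Psi_pos (P : MvPolynomial σ ℝ) (hP : P ≠ 0) (h : ℝ) (hh : 0 < h) (x : σ → ℝ) :
    0 < Psi P h x := by
  unfold Psi
  apply coefSum_pos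
  intro h0
  apply hP
  have e : shf (shf P h x) (1 / h) (fun i => - x i / h) = P := by
    rw [shf_shf]
    have e1 : h * (1 / h) = 1 := by field_simp
    have e2 : (fun i => x i + h * (- x i / h)) = fun _ : σ => (0 : ℝ) := by
      funext i
      field_simp
      ring
    rw [e1, e2, shf_zero_one]
  rw [← e, h0]
  unfold shf
  simp

theorem Psi_add_le (P Q : MvPolynomial σ ℝ) (h : ℝ) (x : σ → ℝ) :
    Psi (P + Q) h x ≤ Psi P h x + Psi Q h x := by
  unfold Psi shf
  rw [map_add]
  exact coefSum_add_le _ _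

theorem Psi_mul_le (P Q : MvPolynomial σ ℝ) (h : ℝ) (x : σ → ℝ) :
    Psi (P * Q) h x ≤ Psi P h x * Psi Q h x := by
  unfold Psi shf
  rw [map_mul]
  exact coefSum_mul_le _ _

theorem Psi_C_mul (r : ℝ) (Q : MvPolynomial σ ℝ) (h : ℝ) (x : σ → ℝ) :
    Psi (C r * Q) h x = |r| * Psi Q h x := by
  unfold Psi shf
  rw [map_mul, algHom_C, algebraMap_eq, coefSum_C_mul]

/-! ### The terms of `Psi` are polynomials in the point -/

/-- The Taylor expansion `P (x + h u)` as a polynomial in `u` over the polynomials in `x`. -/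
noncomputable def tay (P : MvPolynomial σ ℝ) (h : ℝ) : MvPolynomial σ (MvPolynomial σ ℝ) :=
  eval₂ (C.comp C) (fun i => C (X i) + C (C h) * X i) P

theorem map_tay (P : MvPolynomial σ ℝ) (h : ℝ) (x : σ → ℝ) :
    MvPolynomial.map (eval x) (tay P h) = shf P h x := by
  classical
  unfold tay shf
  rw [aeval_def, eval₂_eq, eval₂_eq, map_sum]
  refine Finset.sum_congr rfl fun α _ => ?_
  simp [map_prod]

/-- The polynomials whose absolute values sum to `Psi`. -/
noncomputable def jet (P : MvPolynomial σ ℝ) (h : ℝ) (α : σ →₀ ℕ) : MvPolynomial σ ℝ :=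
  coeff α (tay P h)

theorem coeff_shf (P : MvPolynomial σ ℝ) (h : ℝ) (x : σ → ℝ) (α : σ →₀ ℕ) :
    coeff α (shf P h x) = eval x (jet P h α) := by
  unfold jet
  rw [← map_tay, coeff_map]

/-- The exponents occurring in `Psi`, a finite set which does not depend on the point. -/
noncomputable def jets (P : MvPolynomial σ ℝ) (h : ℝ) : Finset (σ →₀ ℕ) := (tay P h).support

theorem Psi_eq (P : MvPolynomial σ ℝ) (h : ℝ) (x : σ → ℝ) :
    Psi P h x = ∑ α ∈ jets P h, |eval x (jet P h α)| := by
  classical
  unfold Psi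
  rw [coefSum_eq_of_subset (shf P h x) (jets P h)]
  · exact Finset.sum_congr rfl fun α _ => by rw [coeff_shf]
  · intro α hα
    rw [mem_support_iff, coeff_shf] at hα
    unfold jets
    rw [mem_support_iff]
    intro h0
    apply hα
    unfold jet
    rw [h0, map_zero]

/-- The degrees of the terms of `Psi`. -/
theorem totalDegree_jet_le (P : MvPolynomial σ ℝ) (h : ℝ) (α : σ →₀ ℕ) :
    (jet P h α).totalDegree ≤ P.totalDegree := by
  classical
  -- the polynomials over `MvPolynomial σ ℝ` all of whose coefficients have small degree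
  have key : ∀ (s : Finset σ) (e : σ → ℕ) (β : σ →₀ ℕ),
      (coeff β (∏ i ∈ s, (C (X i) + C (C h) * X i :
        MvPolynomial σ (MvPolynomial σ ℝ)) ^ e i)).totalDegree ≤ ∑ i ∈ s, e i := by
    have mulc : ∀ (A B : MvPolynomial σ (MvPolynomial σ ℝ)) (a b : ℕ),
        (∀ β, (coeff β A).totalDegree ≤ a) → (∀ β, (coeff β B).totalDegree ≤ b) →
        ∀ β, (coeff β (A * B)).totalDegree ≤ a + b := by
      intro A B a b hA hB β
      rw [coeff_mul]
      refine totalDegree_finsetSum_le ?_
      intro q _
      exact (totalDegree_mul _ _).trans (add_le_add (hA _) (hB _))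
    have lin : ∀ (i : σ) (β : σ →₀ ℕ), (coeff β (C (X i) + C (C h) * X i :
        MvPolynomial σ (MvPolynomial σ ℝ))).totalDegree ≤ 1 := by
      intro i β
      rw [coeff_add]
      refine (totalDegree_add _ _).trans (max_le ?_ ?_)
      · rw [coeff_C]
        split_ifs
        · rw [totalDegree_X]
        · simp
      · rw [coeff_C_mul, coeff_X]
        split_ifs
        · simp
        · simp
    have powc : ∀ (i : σ) (k : ℕ) (β : σ →₀ ℕ), (coeff β ((C (X i) + C (C h) * X i :
        MvPolynomial σ (MvPolynomial σ ℝ)) ^ k)).totalDegree ≤ k := by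
      intro i k
      induction k with
      | zero =>
        intro β
        rw [pow_zero, coeff_one]
        split_ifs <;> simp
      | succ k ih =>
        intro β
        rw [pow_succ]
        exact mulc _ _ k 1 ih (lin i) β
    intro s e
    induction s using Finset.induction_on with
    | empty =>
      intro β
      rw [Finset.prod_empty, coeff_one]
      split_ifs <;> simp
    | insert a s ha ih =>
      intro β
      rw [Finset.prod_insert ha, Finset.sum_insert ha]
      exact mulc _ _ _ _ (powc a (e a)) ih β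
  unfold jet tay
  rw [eval₂_eq, coeff_sum]
  refine totalDegree_finsetSum_le ?_
  intro β hβ
  rw [RingHom.comp_apply, coeff_C_mul]
  refine (totalDegree_mul _ _).trans ?_
  rw [totalDegree_C, zero_add]
  exact (key β.support β α).trans (le_totalDegree hβ)

/-- Along a line every term of `Psi` is a polynomial of degree at most `deg P`. -/
theorem exists_line (Q : MvPolynomial σ ℝ) (x v : σ → ℝ) :
    ∃ q : Polynomial ℝ, q.natDegree ≤ Q.totalDegree ∧
      ∀ t : ℝ, eval (fun i => x i + t * v i) Q = q.eval t := by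
  classical
  refine ⟨aeval (fun i => (Polynomial.C (x i) + Polynomial.X * Polynomial.C (v i) :
    Polynomial ℝ)) Q, ?_, ?_⟩
  · rw [aeval_def, eval₂_eq]
    refine Polynomial.natDegree_sum_le_of_forall_le _ _ ?_
    intro α hα
    refine (Polynomial.natDegree_mul_le).trans ?_
    have h0 : (algebraMap ℝ (Polynomial ℝ) (coeff α Q)).natDegree = 0 :=
      Polynomial.natDegree_C _
    rw [h0, zero_add]
    refine (Polynomial.natDegree_prod_le _ _).trans ?_
    have h2 : ∀ i ∈ α.support, ((Polynomial.C (x i) + Polynomial.X * Polynomial.C (v i) :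
        Polynomial ℝ) ^ α i).natDegree ≤ α i := by
      intro i _
      refine (Polynomial.natDegree_pow_le).trans ?_
      have h3 : (Polynomial.C (x i) + Polynomial.X * Polynomial.C (v i) :
          Polynomial ℝ).natDegree ≤ 1 := by
        refine (Polynomial.natDegree_add_le _ _).trans ?_
        rw [Polynomial.natDegree_C]
        refine max_le (Nat.zero_le _) ?_
        refine (Polynomial.natDegree_mul_le).trans ?_
        rw [Polynomial.natDegree_C, add_zero]
        exact Polynomial.natDegree_X_le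
      calc α i * _ ≤ α i * 1 := Nat.mul_le_mul_left _ h3
        _ = α i := mul_one _
    exact (Finset.sum_le_sum h2).trans (le_totalDegree hα)
  · intro t
    rw [aeval_def, eval₂_eq, eval_eq, Polynomial.eval_finsetSum]
    refine Finset.sum_congr rfl fun α _ => ?_
    rw [Polynomial.eval_mul, Polynomial.eval_prod]
    have h0 : (algebraMap ℝ (Polynomial ℝ) (coeff α Q)).eval t = coeff α Q :=
      Polynomial.eval_C
    rw [h0]
    congr 1
    refine Finset.prod_congr rfl fun i _ => ?_
    simp only [Polynomial.eval_pow, Polynomial.eval_add, Polynomial.eval_C, Polynomial.eval_mul,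
      Polynomial.eval_X]

/-- **Psi along a line**: it is the sum of the absolute values of finitely many polynomials of
degree at most `deg P` in one variable, the number of terms being the same for all lines. -/
theorem Psi_line (P : MvPolynomial σ ℝ) (h : ℝ) (x v : σ → ℝ) :
    ∃ q : (σ →₀ ℕ) → Polynomial ℝ, (∀ α, (q α).natDegree ≤ P.totalDegree) ∧
      ∀ t : ℝ, Psi P h (fun i => x i + t * v i) = ∑ α ∈ jets P h, |(q α).eval t| := by
  choose q hq using fun α => exists_line (jet P h α) x v
  refine ⟨q, fun α => (hq α).1.trans (totalDegree_jet_le P h α), fun t => ?_⟩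
  rw [Psi_eq]
  exact Finset.sum_congr rfl fun α _ => by rw [(hq α).2 t]

/-! ### The square of the euclidean norm of the coefficients -/

/-- The polynomial `∑ α, (jet P h α)²`, of degree at most `2 deg P`. -/
noncomputable def sqJet (P : MvPolynomial σ ℝ) (h : ℝ) : MvPolynomial σ ℝ :=
  ∑ α ∈ jets P h, jet P h α ^ 2

theorem totalDegree_sqJet_le (P : MvPolynomial σ ℝ) (h : ℝ) :
    (sqJet P h).totalDegree ≤ 2 * P.totalDegree := by
  unfold sqJet
  refine totalDegree_finsetSum_le ?_
  intro α _
  refine (totalDegree_pow _ _).trans ?_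
  exact Nat.mul_le_mul_left _ (totalDegree_jet_le P h α)

theorem eval_sqJet (P : MvPolynomial σ ℝ) (h : ℝ) (x : σ → ℝ) :
    eval x (sqJet P h) = ∑ α ∈ jets P h, |eval x (jet P h α)| ^ 2 := by
  unfold sqJet
  rw [map_sum]
  refine Finset.sum_congr rfl fun α _ => ?_
  rw [map_pow, sq_abs]

theorem eval_sqJet_nonneg (P : MvPolynomial σ ℝ) (h : ℝ) (x : σ → ℝ) :
    0 ≤ eval x (sqJet P h) := by
  rw [eval_sqJet]
  positivity

theorem eval_sqJet_le (P : MvPolynomial σ ℝ) (h : ℝ) (x : σ → ℝ) :
    eval x (sqJet P h) ≤ Psi P h x ^ 2 := by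
  rw [eval_sqJet, Psi_eq]
  exact Finset.sum_sq_le_sq_sum_of_nonneg fun _ _ => abs_nonneg _

theorem Psi_sq_le (P : MvPolynomial σ ℝ) (h : ℝ) (x : σ → ℝ) :
    Psi P h x ^ 2 ≤ (jets P h).card * eval x (sqJet P h) := by
  rw [eval_sqJet, Psi_eq]
  exact sq_sum_le_card_mul_sum_sq

/-! ### Derivatives -/

theorem coefSum_pderiv_le (P : MvPolynomial σ ℝ) (i : σ) :
    coefSum (pderiv i P) ≤ P.totalDegree * coefSum P := by
  classical
  conv_lhs => rw [P.as_sum, map_sum]
  refine (coefSum_sum_le _ _).trans ?_
  have h2 : (P.totalDegree : ℝ) * coefSum P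
      = ∑ α ∈ P.support, (P.totalDegree : ℝ) * |coeff α P| := by
    unfold coefSum
    rw [Finset.mul_sum]
  rw [h2]
  refine Finset.sum_le_sum ?_
  intro α hα
  rw [pderiv_monomial, coefSum_monomial, abs_mul, Nat.abs_cast, mul_comm]
  refine mul_le_mul_of_nonneg_right ?_ (abs_nonneg _)
  have : α i ≤ P.totalDegree := by
    by_cases h0 : α i = 0
    · omega
    · refine le_trans ?_ (le_totalDegree hα)
      exact Finset.single_le_sum (f := fun j => α j) (fun _ _ => Nat.zero_le _)
        (Finsupp.mem_support_iff.2 h0)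
  exact_mod_cast this

theorem pderiv_shf (P : MvPolynomial σ ℝ) (h : ℝ) (x : σ → ℝ) (i : σ) :
    pderiv i (shf P h x) = C h * shf (pderiv i P) h x := by
  classical
  unfold shf
  induction P using MvPolynomial.induction_on with
  | C a => simp
  | add p q hp hq => rw [map_add, map_add, hp, hq, map_add, map_add, mul_add]
  | mul_X p j hp =>
    rw [map_mul, Derivation.leibniz, hp, aeval_X, Derivation.leibniz, map_add (pderiv i),
      pderiv_C, zero_add, pderiv_C_mul]
    by_cases hij : j = i
    · subst hij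
      simp only [pderiv_X_self, smul_eq_mul, map_add, map_mul, aeval_X, map_one]
      ring
    · simp only [pderiv_X_of_ne hij, smul_eq_mul, map_add, map_mul, aeval_X, map_zero]
      ring

/-- Differentiation costs one power of the radius. -/
theorem Psi_pderiv_le (P : MvPolynomial σ ℝ) (h : ℝ) (hh : 0 ≤ h) (x : σ → ℝ) (i : σ) :
    h * Psi (pderiv i P) h x ≤ P.totalDegree * Psi P h x := by
  have h1 := coefSum_pderiv_le (shf P h x) i
  rw [pderiv_shf, coefSum_C_mul, abs_of_nonneg hh] at h1
  refine h1.trans (mul_le_mul_of_nonneg_right ?_ (coefSum_nonneg _))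
  exact_mod_cast totalDegree_shf_le P h x

end general

section finite

variable {σ : Type*} [Finite σ]

/-- The exponents of degree at most `D`. -/
noncomputable def expBox (σ : Type*) [Finite σ] (D : ℕ) : Finset (σ →₀ ℕ) :=
  (Finsupp.finite_of_degree_le (σ := σ) D).toFinset

theorem mem_expBox (D : ℕ) (α : σ →₀ ℕ) : α ∈ expBox σ D ↔ α.degree ≤ D := by
  unfold expBox
  rw [Set.Finite.mem_toFinset]
  rfl

theorem support_subset_expBox (P : MvPolynomial σ ℝ) (D : ℕ) (hD : P.totalDegree ≤ D) :
    P.support ⊆ expBox σ D := by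
  intro α hα
  rw [mem_expBox]
  exact (le_totalDegree hα).trans hD

theorem coefSum_eq_box (P : MvPolynomial σ ℝ) (D : ℕ) (hD : P.totalDegree ≤ D) :
    coefSum P = ∑ α ∈ expBox σ D, |coeff α P| :=
  coefSum_eq_of_subset P _ (support_subset_expBox P D hD)

/-- `Psi` as a sum over a set of exponents which depends on the degree only. -/
theorem Psi_eq_box (P : MvPolynomial σ ℝ) (D : ℕ) (hD : P.totalDegree ≤ D) (h : ℝ) (x : σ → ℝ) :
    Psi P h x = ∑ α ∈ expBox σ D, |eval x (jet P h α)| := by
  unfold Psi
  rw [coefSum_eq_box _ D ((totalDegree_shf_le P h x).trans hD)]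
  exact Finset.sum_congr rfl fun α _ => by rw [coeff_shf]

/-- **Psi along a line**, with a number of terms depending on the degree only. -/
theorem Psi_line_box (P : MvPolynomial σ ℝ) (D : ℕ) (hD : P.totalDegree ≤ D) (h : ℝ)
    (x v : σ → ℝ) :
    ∃ q : (σ →₀ ℕ) → Polynomial ℝ, (∀ α, (q α).natDegree ≤ D) ∧
      ∀ t : ℝ, Psi P h (fun i => x i + t * v i) = ∑ α ∈ expBox σ D, |(q α).eval t| := by
  choose q hq using fun α => exists_line (jet P h α) x v
  refine ⟨q, fun α => ((hq α).1.trans (totalDegree_jet_le P h α)).trans hD, fun t => ?_⟩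
  rw [Psi_eq_box P D hD]
  exact Finset.sum_congr rfl fun α _ => by rw [(hq α).2 t]

/-- **The sum of the coefficients is at most a constant times the maximum on the unit cube.** -/
theorem exists_coefSum_le (σ : Type*) [Finite σ] (D : ℕ) :
    ∃ K : ℝ, 1 ≤ K ∧ ∀ (P : MvPolynomial σ ℝ) (M : ℝ), P.totalDegree ≤ D →
      (∀ u : σ → ℝ, (∀ i, |u i| ≤ 1) → |eval u P| ≤ M) → coefSum P ≤ K * M := by
  classical
  have := Fintype.ofFinite σ
  -- the grid
  let g : Fin (D + 1) → ℝ := fun j => (j : ℝ) / (D + 1)
  have hginj : Function.Injective g := by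
    intro a b hab
    have hpos : (0 : ℝ) < D + 1 := by positivity
    have h1 : ((a : ℕ) : ℝ) / (D + 1) = ((b : ℕ) : ℝ) / (D + 1) := hab
    rw [div_left_inj' hpos.ne'] at h1
    exact Fin.ext (by exact_mod_cast h1)
  have hg1 : ∀ j, |g j| ≤ 1 := by
    intro j
    have hpos : (0 : ℝ) < D + 1 := by positivity
    have h2 : ((j : ℕ) : ℝ) ≤ D + 1 := by
      have := j.2
      exact_mod_cast this.le
    show |((j : ℕ) : ℝ) / (D + 1)| ≤ 1
    rw [abs_div, abs_of_pos hpos, Nat.abs_cast, div_le_one hpos]
    exact h2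
  -- the evaluation map on coefficient vectors
  let B := expBox σ D
  let mk : (B → ℝ) →ₗ[ℝ] MvPolynomial σ ℝ :=
    { toFun := fun c => ∑ α : B, monomial (α : σ →₀ ℕ) (c α)
      map_add' := by
        intro c d
        rw [← Finset.sum_add_distrib]
        exact Finset.sum_congr rfl fun α _ => by simp
      map_smul' := by
        intro r c
        rw [RingHom.id_apply, Finset.smul_sum]
        exact Finset.sum_congr rfl fun α _ => by simp [smul_monomial] }
  let Φ : (B → ℝ) →ₗ[ℝ] ((σ → Fin (D + 1)) → ℝ) :=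
    { toFun := fun c j => eval (fun i => g (j i)) (mk c)
      map_add' := by
        intro c d
        funext j
        simp
      map_smul' := by
        intro r c
        funext j
        simp [smul_eval] }
  have hcoeff : ∀ (c : B → ℝ) (α : B), coeff (α : σ →₀ ℕ) (mk c) = c α := by
    intro c α
    show coeff (α : σ →₀ ℕ) (∑ β : B, monomial (β : σ →₀ ℕ) (c β)) = c α
    rw [coeff_sum, Finset.sum_eq_single α]
    · simp
    · intro β _ hne
      rw [coeff_monomial, if_neg]
      intro h
      exact hne (Subtype.ext h)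
    · intro h
      exact absurd (Finset.mem_univ α) h
  have hdeg : ∀ c : B → ℝ, (mk c).totalDegree ≤ D := by
    intro c
    show (∑ β : B, monomial (β : σ →₀ ℕ) (c β)).totalDegree ≤ D
    refine totalDegree_finsetSum_le ?_
    intro β _
    refine (totalDegree_monomial_le _ _).trans ?_
    have := (mem_expBox D (β : σ →₀ ℕ)).1 β.2
    exact this
  have hker : LinearMap.ker Φ = ⊥ := by
    rw [LinearMap.ker_eq_bot']
    intro c hc
    have h0 : mk c = 0 := by
      refine eq_zero_of_eval_zero_at_prod_finset (mk c)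
        (fun _ => (Finset.univ : Finset (Fin (D + 1))).image g) ?_ ?_
      · intro i
        rw [Finset.card_image_of_injective _ hginj, Finset.card_univ, Fintype.card_fin]
        exact Nat.lt_succ_of_le ((degreeOf_le_totalDegree _ i).trans (hdeg c))
      · intro x hx
        have hx' : ∀ i, ∃ j, g j = x i := by
          intro i
          have := hx i
          rw [Finset.mem_image] at this
          obtain ⟨j, _, hj⟩ := this
          exact ⟨j, hj⟩
        choose j hj using hx'
        have := congrFun hc j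
        have e : (fun i => g (j i)) = x := funext hj
        have h3 : eval (fun i => g (j i)) (mk c) = 0 := this
        rw [e] at h3
        exact h3
    funext α
    rw [← hcoeff c α, h0, coeff_zero]
    rfl
  obtain ⟨L, hL⟩ := Φ.exists_leftInverse_of_injective hker
  let Lc := LinearMap.toContinuousLinearMap L
  refine ⟨(B.card : ℝ) * ‖Lc‖ + 1, by
    have : 0 ≤ (B.card : ℝ) * ‖Lc‖ := by positivity
    linarith, ?_⟩
  intro P M hP hM
  have hM0 : 0 ≤ M := (abs_nonneg _).trans (hM (fun _ => 0) (by simp))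
  let c : B → ℝ := fun α => coeff (α : σ →₀ ℕ) P
  have hPc : mk c = P := by
    ext β
    by_cases hβ : β ∈ B
    · exact hcoeff c ⟨β, hβ⟩
    · have h1 : coeff β P = 0 := by
        rw [← notMem_support_iff]
        exact fun h => hβ (support_subset_expBox P D hP h)
      have h2 : coeff β (mk c) = 0 := by
        rw [← notMem_support_iff]
        exact fun h => hβ (support_subset_expBox (mk c) D (hdeg c) h)
      rw [h1, h2]
  have hΦ : ‖Φ c‖ ≤ M := by
    rw [pi_norm_le_iff_of_nonneg hM0]
    intro j
    show ‖eval (fun i => g (j i)) (mk c)‖ ≤ M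
    rw [hPc, Real.norm_eq_abs]
    exact hM _ fun i => hg1 _
  have hc : c = Lc (Φ c) := by
    have := LinearMap.congr_fun hL c
    exact this.symm
  have hcn : ‖c‖ ≤ ‖Lc‖ * M := by
    calc ‖c‖ = ‖Lc (Φ c)‖ := by rw [← hc]
      _ ≤ ‖Lc‖ * ‖Φ c‖ := Lc.le_opNorm _
      _ ≤ ‖Lc‖ * M := mul_le_mul_of_nonneg_left hΦ (norm_nonneg _)
  rw [coefSum_eq_box P D hP]
  have h5 : ∑ α ∈ expBox σ D, |coeff α P| ≤ ∑ _α ∈ expBox σ D, ‖Lc‖ * M := by
    refine Finset.sum_le_sum ?_
    intro α hα
    have h6 : ‖c ⟨α, hα⟩‖ ≤ ‖c‖ := norm_le_pi_norm c ⟨α, hα⟩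
    rw [Real.norm_eq_abs] at h6
    exact h6.trans hcn
  refine h5.trans ?_
  rw [Finset.sum_const, nsmul_eq_mul]
  show (B.card : ℝ) * (‖Lc‖ * M) ≤ _
  nlinarith

/-- **Psi is comparable with the maximum of `|P|` on the cube of radius `h`.** -/
theorem exists_Psi_le_sup (σ : Type*) [Finite σ] (D : ℕ) :
    ∃ K : ℝ, 1 ≤ K ∧ ∀ (P : MvPolynomial σ ℝ) (h : ℝ) (x : σ → ℝ) (M : ℝ), P.totalDegree ≤ D →
      0 ≤ h → (∀ y : σ → ℝ, (∀ i, |y i - x i| ≤ h) → |eval y P| ≤ M) → Psi P h x ≤ K * M := by
  obtain ⟨K, hK1, hK⟩ := exists_coefSum_le σ D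
  refine ⟨K, hK1, ?_⟩
  intro P h x M hP hh hM
  refine hK (shf P h x) M ((totalDegree_shf_le P h x).trans hP) ?_
  intro u hu
  rw [eval_shf]
  refine hM _ ?_
  intro i
  have : x i + h * u i - x i = h * u i := by ring
  rw [this, abs_mul, abs_of_nonneg hh]
  calc h * |u i| ≤ h * 1 := mul_le_mul_of_nonneg_left (hu i) hh
    _ = h := mul_one h

end finite

end Pool.KAL
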