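import Mathlib

/-!
# Places where a polynomial is small and its derivative is not
-/

set_option autoImplicit false

namespace Pool.Agent.H10.KAL

open Finset Polynomial

/-- Between two far apart places where the polynomial is small the derivative is small. -/
theorem exists_deriv_lt (P : Polynomial ℝ) {ε a x y : ℝ} (ha : 0 < a)
    (hx : |P.eval x| ≤ ε) (hy : |P.eval y| ≤ ε) (hxy : 2 * ε / a < y - x) (hε : 0 ≤ ε) :
    ∃ c ∈ Set.Ioo x y, |P.derivative.eval c| < a := by
  have hlt : x < y := by
    have : 0 ≤ 2 * ε / a := by positivity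
    linarith
  obtain ⟨c, hc, hc'⟩ := exists_hasDerivAt_eq_slope (fun z => P.eval z)
    (fun z => P.derivative.eval z) hlt (P.continuous.continuousOn)
    (fun z _ => P.hasDerivAt z)
  refine ⟨c, hc, ?_⟩
  rw [hc', abs_div, abs_of_pos (sub_pos.2 hlt), div_lt_iff₀ (sub_pos.2 hlt)]
  have h1 : |P.eval y - P.eval x| ≤ 2 * ε := by
    refine (abs_sub _ _).trans ?_
    linarith
  refine lt_of_le_of_lt h1 ?_
  rw [div_lt_iff₀ ha] at hxy
  linarith

/-- A finite set of places, pairwise more than `2 ε / a` apart, where `|P| ≤ ε` and `a ≤ |P'|`, has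
at most `2 d` elements. -/
theorem card_le_of_separated (d : ℕ) (hd : 1 ≤ d) (P : Polynomial ℝ) (hP : P.natDegree ≤ d)
    {ε a : ℝ} (ha : 0 < a) (hε : 0 ≤ ε) (E : Finset ℝ) (h1 : ∀ x ∈ E, |P.eval x| ≤ ε)
    (h2 : ∀ x ∈ E, a ≤ |P.derivative.eval x|)
    (h3 : ∀ x ∈ E, ∀ y ∈ E, x < y → 2 * ε / a < y - x) : E.card ≤ 2 * d := by
  by_contra hcon
  push Not at hcon
  set N := E.card with hN
  set e : Fin N ↪o ℝ := E.orderEmbOfFin rfl with he
  have hmem : ∀ i, e i ∈ E := fun i => Finset.orderEmbOfFin_mem E rfl i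
  set q : Polynomial ℝ := P.derivative ^ 2 - C (a ^ 2) with hq
  have hqe : ∀ z, q.eval z = (P.derivative.eval z) ^ 2 - a ^ 2 := by
    intro z; simp [hq]
  have hq0 : ∀ i, 0 ≤ q.eval (e i) := by
    intro i
    rw [hqe]
    have := h2 _ (hmem i)
    have h4 := pow_le_pow_left₀ ha.le this 2
    rw [sq_abs] at h4
    linarith
  have hcex : ∀ i : Fin (N - 1), ∃ c, e ⟨i, by omega⟩ < c ∧ c < e ⟨i + 1, by omega⟩ ∧
      q.eval c < 0 := by
    intro i
    have hlt : e ⟨i, by omega⟩ < e ⟨i + 1, by omega⟩ := by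
      apply e.strictMono
      simp [Fin.lt_def]
    obtain ⟨c, hc, hc'⟩ := exists_deriv_lt P ha (h1 _ (hmem ⟨i, by omega⟩))
      (h1 _ (hmem ⟨i + 1, by omega⟩)) (h3 _ (hmem _) _ (hmem _) hlt) hε
    refine ⟨c, hc.1, hc.2, ?_⟩
    rw [hqe]
    have h4 : |P.derivative.eval c| ^ 2 < a ^ 2 :=
      pow_lt_pow_left₀ hc' (abs_nonneg _) (by norm_num)
    rw [sq_abs] at h4
    linarith
  choose c hc1 hc2 hc3 using hcex
  have hqne : q ≠ 0 := by
    intro h0
    have := hc3 ⟨0, by omega⟩
    rw [h0] at this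
    simp at this
  -- a root in every interval `[e i, c i)`
  have hroot : ∀ i : Fin (N - 1), ∃ r, e ⟨i, by omega⟩ ≤ r ∧ r < c i ∧ q.eval r = 0 := by
    intro i
    have hcont : ContinuousOn (fun z => q.eval z) (Set.Icc (e ⟨i, by omega⟩) (c i)) :=
      q.continuous.continuousOn
    obtain ⟨r, hr, hr'⟩ := intermediate_value_Icc' (hc1 i).le hcont ⟨(hc3 i).le, hq0 _⟩
    refine ⟨r, hr.1, lt_of_le_of_ne hr.2 ?_, hr'⟩
    rintro rfl
    have := hc3 i
    rw [show q.eval (c i) = 0 from hr'] at this
    exact lt_irrefl _ this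
  choose r hr1 hr2 hr3 using hroot
  have hinj : Function.Injective r := by
    intro i j hij
    rcases lt_trichotomy i j with h | h | h
    · exfalso
      have h5 : c i < e ⟨i + 1, by omega⟩ := hc2 i
      have h6 : e ⟨i + 1, by omega⟩ ≤ e ⟨j, by omega⟩ := by
        apply e.monotone
        rw [Fin.le_def]
        simp only
        have := Fin.lt_def.1 h
        omega
      have := hr2 i
      have := hr1 j
      linarith
    · exact h
    · exfalso
      have h5 : c j < e ⟨j + 1, by omega⟩ := hc2 j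
      have h6 : e ⟨j + 1, by omega⟩ ≤ e ⟨i, by omega⟩ := by
        apply e.monotone
        rw [Fin.le_def]
        simp only
        have := Fin.lt_def.1 h
        omega
      have := hr2 j
      have := hr1 i
      linarith
  have hsub : (univ.image r) ⊆ q.roots.toFinset := by
    intro z hz
    rw [mem_image] at hz
    obtain ⟨i, -, rfl⟩ := hz
    rw [Multiset.mem_toFinset, mem_roots hqne]
    exact hr3 i
  have hcard : N - 1 ≤ q.roots.toFinset.card := by
    have := card_le_card hsub
    rw [card_image_of_injective _ hinj, card_univ, Fintype.card_fin] at this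
    exact this
  have hdeg : q.natDegree ≤ 2 * (d - 1) := by
    rw [hq]
    refine (natDegree_sub_C).le.trans ?_
    refine (natDegree_pow_le).trans ?_
    have := P.natDegree_derivative_le
    have h7 : P.derivative.natDegree ≤ d - 1 := this.trans (by omega)
    omega
  have h8 : q.roots.toFinset.card ≤ q.natDegree :=
    (Multiset.toFinset_card_le _).trans (card_roots' q)
  omega

/-- The number of cells of length `δ` in which there is a place where `|P| ≤ ε` and `a ≤ |P'|` is at
most `4 d`, if `2 ε / a ≤ δ`. -/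
theorem card_cells_le (d : ℕ) (hd : 1 ≤ d) (P : Polynomial ℝ) (hP : P.natDegree ≤ d)
    {ε a δ : ℝ} (ha : 0 < a) (hε : 0 ≤ ε) (hδ : 0 < δ) (hεδ : 2 * ε / a ≤ δ)
    (F : Finset ℤ) (hF : ∀ n ∈ F, ∃ x : ℝ, ⌊x / δ⌋ = n ∧ |P.eval x| ≤ ε ∧
      a ≤ |P.derivative.eval x|) : F.card ≤ 4 * d := by
  classical
  have key : ∀ b : ℤ, (b = 0 ∨ b = 1) → (F.filter fun n => n % 2 = b).card ≤ 2 * d := by
    intro b hb
    choose! x hx1 hx2 hx3 using hF
    have hinj : Set.InjOn x (F.filter fun n => n % 2 = b : Finset ℤ) := by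
      intro n hn n' hn' h
      rw [coe_filter] at hn hn'
      rw [← hx1 n hn.1, ← hx1 n' hn'.1, h]
    rw [← card_image_of_injOn hinj]
    refine card_le_of_separated d hd P hP ha hε _ ?_ ?_ ?_
    · intro y hy
      rw [mem_image] at hy
      obtain ⟨n, hn, rfl⟩ := hy
      exact hx2 n (mem_filter.1 hn).1
    · intro y hy
      rw [mem_image] at hy
      obtain ⟨n, hn, rfl⟩ := hy
      exact hx3 n (mem_filter.1 hn).1
    · intro y hy z hz hyz
      rw [mem_image] at hy hz
      obtain ⟨n, hn, rfl⟩ := hy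
      obtain ⟨n', hn', rfl⟩ := hz
      rw [mem_filter] at hn hn'
      refine lt_of_le_of_lt hεδ ?_
      have e1 := hx1 n hn.1
      have e2 := hx1 n' hn'.1
      have hle : n ≤ n' := by
        rw [← e1, ← e2]
        exact Int.floor_le_floor (div_le_div_of_nonneg_right hyz.le hδ.le)
      have hne : n ≠ n' := by
        rintro rfl
        exact lt_irrefl _ hyz
      have h2 : n + 2 ≤ n' := by omega
      have h3 : (x n / δ) < n + 1 := by
        have := Int.lt_floor_add_one (x n / δ)
        rwa [e1] at this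
      have h4 : (n' : ℝ) ≤ x n' / δ := by
        have := Int.floor_le (x n' / δ)
        rwa [e2] at this
      have h5 : (n : ℝ) + 2 ≤ n' := by exact_mod_cast h2
      have h6 : 1 < x n' / δ - x n / δ := by linarith
      rw [← sub_div, lt_div_iff₀ hδ] at h6
      linarith
  have hsplit : F = (F.filter fun n => n % 2 = 0) ∪ (F.filter fun n => n % 2 = 1) := by
    ext n
    simp only [mem_union, mem_filter]
    have := Int.emod_two_eq_zero_or_one n
    tauto
  rw [hsplit]
  refine (card_union_le _ _).trans ?_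
  have h0 := key 0 (Or.inl rfl)
  have h1 := key 1 (Or.inr rfl)
  omega

end Pool.Agent.H10.KAL
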