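import Pool.Agent.H40.KAL.SUBL
import Pool.Agent.H20.KAL.RMM

/-!
# Remez inequality in mean
-/

set_option autoImplicit false

namespace Pool.Agent.H10.KAL

open Finset Real MeasureTheory
open Pool.Agent.H49.Ent Pool.STK Pool.KAL

/-- **Gibbs' inequality for conditional laws.** -/
theorem gibbs_cond {Ω S V : Type} [Fintype Ω] {p : Ω → ℝ} (hp : IsLaw p) (T : Ω → S) (L : Ω → V)
    (F : Finset S) (hF : ∀ ω, T ω ∈ F) (w : V → S → ℝ) (hw : ∀ v, ∀ t ∈ F, 0 < w v t) :
    CH p T L + ∑ ω, p ω * Real.log (w (L ω) (T ω)) ≤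
      ∑ ω, p ω * Real.log (∑ t ∈ F, w (L ω) t) := by
  classical
  have hp0 := hp.nonneg
  have hCH : CH p T L = -∑ ω, p ω * (Real.log (law p (fun ω => (T ω, L ω)) (T ω, L ω)) -
      Real.log (law p L (L ω))) := by
    unfold CH H
    simp only [mul_sub, Finset.sum_sub_distrib]
    ring
  have hne : ∀ ω, 0 < ∑ t ∈ F, w (L ω) t := fun ω =>
    Finset.sum_pos (fun t ht => hw _ t ht) ⟨T ω, hF ω⟩
  -- termwise inequality
  have key : ∀ ω, p ω * (Real.log (w (L ω) (T ω)) -
      (Real.log (law p (fun ω => (T ω, L ω)) (T ω, L ω)) - Real.log (law p L (L ω))) -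
      Real.log (∑ t ∈ F, w (L ω) t)) ≤
      p ω * (w (L ω) (T ω) * law p L (L ω) /
        (law p (fun ω => (T ω, L ω)) (T ω, L ω) * ∑ t ∈ F, w (L ω) t)) - p ω := by
    intro ω
    rcases (hp0 ω).eq_or_lt with h0 | h0
    · simp [← h0]
    have h1 : 0 < law p (fun ω => (T ω, L ω)) (T ω, L ω) :=
      law_pos hp0 (fun ω => (T ω, L ω)) h0
    have h2 : 0 < law p L (L ω) := law_pos hp0 L h0
    have h3 : 0 < w (L ω) (T ω) := hw _ _ (hF ω)
    have h4 := hne ω
    have h5 : Real.log (w (L ω) (T ω)) -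
      (Real.log (law p (fun ω => (T ω, L ω)) (T ω, L ω)) - Real.log (law p L (L ω))) -
      Real.log (∑ t ∈ F, w (L ω) t) = Real.log (w (L ω) (T ω) * law p L (L ω) /
        (law p (fun ω => (T ω, L ω)) (T ω, L ω) * ∑ t ∈ F, w (L ω) t)) := by
      rw [Real.log_div (by positivity) (by positivity), Real.log_mul h3.ne' h2.ne',
        Real.log_mul h1.ne' h4.ne']
      ring
    rw [h5]
    have h6 := Real.log_le_sub_one_of_pos (x := w (L ω) (T ω) * law p L (L ω) /
        (law p (fun ω => (T ω, L ω)) (T ω, L ω) * ∑ t ∈ F, w (L ω) t)) (by positivity)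
    have := mul_le_mul_of_nonneg_left h6 h0.le
    linarith
  have hsum := Finset.sum_le_sum fun ω (_ : ω ∈ (univ : Finset Ω)) => key ω
  rw [Finset.sum_sub_distrib, hp.sum_one] at hsum
  -- the sum of the ratios is at most one
  have hratio : ∑ ω, p ω * (w (L ω) (T ω) * law p L (L ω) /
        (law p (fun ω => (T ω, L ω)) (T ω, L ω) * ∑ t ∈ F, w (L ω) t)) ≤ 1 := by
    have e1 := sum_mul_eq_sum_image p (fun ω => (T ω, L ω)) (fun s : S × V =>
      w s.2 s.1 * law p L s.2 / (law p (fun ω => (T ω, L ω)) s * ∑ t ∈ F, w s.2 t))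
    simp only at e1
    rw [e1]
    have hsub : univ.image (fun ω => (T ω, L ω)) ⊆ F ×ˢ univ.image L := by
      intro s hs
      rw [mem_image] at hs
      obtain ⟨ω, -, rfl⟩ := hs
      exact mem_product.2 ⟨hF ω, mem_image_of_mem L (mem_univ ω)⟩
    have hnn : ∀ s ∈ F ×ˢ univ.image L, 0 ≤ w s.2 s.1 * law p L s.2 / ∑ t ∈ F, w s.2 t := by
      intro s hs
      rw [mem_product] at hs
      have h7 : 0 < w s.2 s.1 := hw _ _ hs.1
      have h8 : 0 ≤ law p L s.2 := law_nonneg hp0 L s.2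
      have h9 : 0 < ∑ t ∈ F, w s.2 t := Finset.sum_pos (fun t ht => hw _ t ht) ⟨s.1, hs.1⟩
      positivity
    calc ∑ s ∈ univ.image (fun ω => (T ω, L ω)), law p (fun ω => (T ω, L ω)) s *
          (w s.2 s.1 * law p L s.2 / (law p (fun ω => (T ω, L ω)) s * ∑ t ∈ F, w s.2 t))
        ≤ ∑ s ∈ univ.image (fun ω => (T ω, L ω)),
            w s.2 s.1 * law p L s.2 / ∑ t ∈ F, w s.2 t := by
          refine Finset.sum_le_sum fun s hs => ?_
          have hs' := hsub hs
          rw [mem_product] at hs'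
          rcases (law_nonneg hp0 (fun ω => (T ω, L ω)) s).eq_or_lt with h0 | h0
          · rw [← h0, zero_mul]
            exact hnn s (hsub hs)
          · have h9 : 0 < ∑ t ∈ F, w s.2 t := Finset.sum_pos (fun t ht => hw _ t ht) ⟨s.1, hs'.1⟩
            apply le_of_eq
            field_simp
      _ ≤ ∑ s ∈ F ×ˢ univ.image L, w s.2 s.1 * law p L s.2 / ∑ t ∈ F, w s.2 t :=
          Finset.sum_le_sum_of_subset_of_nonneg hsub fun s hs _ => hnn s hs
      _ = ∑ v ∈ univ.image L, law p L v := by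
          rw [Finset.sum_product_right]
          refine Finset.sum_congr rfl fun v hv => ?_
          simp only
          rw [← Finset.sum_div, ← Finset.sum_mul]
          rw [mem_image] at hv
          obtain ⟨ω, -, rfl⟩ := hv
          have := hne ω
          field_simp
      _ = 1 := by rw [sum_law, hp.sum_one]
  have hexp : ∑ ω, p ω * (Real.log (w (L ω) (T ω)) -
      (Real.log (law p (fun ω => (T ω, L ω)) (T ω, L ω)) - Real.log (law p L (L ω))) -
      Real.log (∑ t ∈ F, w (L ω) t)) = CH p T L + ∑ ω, p ω * Real.log (w (L ω) (T ω)) -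
      ∑ ω, p ω * Real.log (∑ t ∈ F, w (L ω) t) := by
    rw [hCH, ← Finset.sum_neg_distrib, ← Finset.sum_add_distrib, ← Finset.sum_sub_distrib]
    refine Finset.sum_congr rfl fun ω _ => ?_
    ring
  rw [hexp] at hsum
  linarith

/-- The number of places of the grid where a slowly varying positive polynomial is small. -/
theorem count_small (k : ℕ) (hk : 1 ≤ k) (c0 : ℝ) (hc0 : 1 ≤ c0) : ∃ C : ℝ, 0 < C ∧
    ∀ (q : Polynomial ℝ) (N : ℕ) (M ε : ℝ), q.natDegree ≤ k → (∀ x, 0 < q.eval x) →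
      (∀ x y : ℝ, |x - y| ≤ 1 → q.eval x ≤ c0 * q.eval y) → 1 ≤ N → 0 < M → 0 ≤ ε →
      (∃ x ∈ Set.Icc (0 : ℝ) N, M ≤ q.eval x) →
      (((Finset.range N).filter fun t : ℕ => q.eval (t : ℝ) ≤ ε ^ k * M).card : ℝ) ≤
        C * ε * N := by
  obtain ⟨C, hC, h⟩ := subl_thm rmm_thm k hk
  refine ⟨C * c0, by positivity, ?_⟩
  intro q N M ε hdeg hpos hcomp hN hM hε hex
  obtain ⟨x, hx, hMx⟩ := hex
  have hN0 : (0 : ℝ) < N := by exact_mod_cast hN
  set P : Polynomial ℝ := Polynomial.C (1 / M) * q with hP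
  have hPe : ∀ y, P.eval y = q.eval y / M := by
    intro y
    rw [hP, Polynomial.eval_mul, Polynomial.eval_C]
    ring
  have hPdeg : P.natDegree ≤ k := (Polynomial.natDegree_C_mul_le _ _).trans hdeg
  have h1 := h P 0 N (c0 * ε) hPdeg hN0 (by positivity) ⟨x, hx, by
    rw [hPe, abs_of_pos (div_pos (hpos x) hM), le_div_iff₀ hM]
    linarith⟩
  rw [sub_zero] at h1
  set S := (Finset.range N).filter fun t : ℕ => q.eval (t : ℝ) ≤ ε ^ k * M with hS
  have hsub : (⋃ t ∈ S, Set.Ico (t : ℝ) (t + 1)) ⊆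
      {y ∈ Set.Icc (0 : ℝ) N | |P.eval y| ≤ (c0 * ε) ^ k} := by
    intro y hy
    rw [Set.mem_iUnion₂] at hy
    obtain ⟨t, ht, hy⟩ := hy
    rw [hS, mem_filter, Finset.mem_range] at ht
    refine ⟨⟨le_trans (Nat.cast_nonneg t) hy.1, ?_⟩, ?_⟩
    · have : (t : ℝ) + 1 ≤ N := by exact_mod_cast ht.1
      linarith [hy.2]
    · rw [hPe, abs_of_pos (div_pos (hpos y) hM), div_le_iff₀ hM]
      have h2 : |y - t| ≤ 1 := by
        rw [abs_of_nonneg (by linarith [hy.1])]
        linarith [hy.2]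
      have h3 := hcomp y t h2
      have h4 : c0 * q.eval (t : ℝ) ≤ c0 * (ε ^ k * M) :=
        mul_le_mul_of_nonneg_left ht.2 (by linarith)
      have h5 : c0 ≤ c0 ^ k := le_self_pow₀ hc0 (by omega)
      have h6 : c0 * (ε ^ k * M) ≤ c0 ^ k * (ε ^ k * M) :=
        mul_le_mul_of_nonneg_right h5 (by positivity)
      rw [mul_pow]
      calc q.eval y ≤ c0 * q.eval (t : ℝ) := h3
        _ ≤ _ := h4
        _ ≤ _ := h6
        _ = _ := by ring
  have hvol : volume (⋃ t ∈ S, Set.Ico (t : ℝ) (t + 1)) = (S.card : ENNReal) := by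
    rw [measure_biUnion_finset]
    · simp
    · intro a _ b _ hab
      refine Set.disjoint_left.2 ?_
      rintro y ⟨h1, h2⟩ ⟨h3, h4⟩
      rcases lt_or_gt_of_ne hab with h | h
      · have : (a : ℝ) + 1 ≤ b := by exact_mod_cast h
        linarith
      · have : (b : ℝ) + 1 ≤ a := by exact_mod_cast h
        linarith
    · intro t _
      exact measurableSet_Ico
  have h7 : (S.card : ENNReal) ≤ ENNReal.ofReal (C * (c0 * ε) * N) := by
    rw [← hvol]
    exact (measure_mono hsub).trans h1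
  have h8 : ((S.card : ℝ)) ≤ C * (c0 * ε) * N := by
    have := ENNReal.toReal_mono ENNReal.ofReal_ne_top h7
    rwa [ENNReal.toReal_natCast, ENNReal.toReal_ofReal (by positivity)] at this
  linarith [h8]

/-- Sum of a small negative power of a slowly varying positive polynomial. -/
theorem sum_rpow_le (k : ℕ) (hk : 1 ≤ k) (c0 : ℝ) (hc0 : 1 ≤ c0) : ∃ C : ℝ, 1 ≤ C ∧
    ∀ (q : Polynomial ℝ) (N : ℕ) (M : ℝ), q.natDegree ≤ k → (∀ x, 0 < q.eval x) →
      (∀ x y : ℝ, |x - y| ≤ 1 → q.eval x ≤ c0 * q.eval y) → 1 ≤ N → 0 < M →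
      (∃ x ∈ Set.Icc (0 : ℝ) N, M ≤ q.eval x) →
      ∑ t ∈ Finset.range N, (M / q.eval (t : ℝ)) ^ (1 / (2 * (k : ℝ))) ≤ C * N := by
  obtain ⟨C, hC, h⟩ := count_small k hk c0 hc0
  refine ⟨1 + 2 * C, by linarith, ?_⟩
  intro q N M hdeg hpos hcomp hN hM hex
  have hk0 : (0 : ℝ) < k := by exact_mod_cast hk
  set y : ℕ → ℝ := fun t => (M / q.eval (t : ℝ)) ^ (1 / (2 * (k : ℝ))) with hy
  have hy0 : ∀ t, 0 ≤ y t := fun t => Real.rpow_nonneg (div_nonneg hM.le (hpos _).le) _
  obtain ⟨K, hK⟩ : ∃ K : ℕ, ∀ t ∈ Finset.range N, ⌊y t⌋₊ ≤ K :=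
    ⟨(Finset.range N).sup fun t => ⌊y t⌋₊, fun t ht =>
      Finset.le_sup (f := fun t => ⌊y t⌋₊) ht⟩
  have hcount : ∀ j : ℕ, (((Finset.range N).filter fun t : ℕ => ((j : ℝ) + 1) ≤ y t).card : ℝ) ≤
      C * (1 / ((j : ℝ) + 1) ^ 2) * N := by
    intro j
    have hj : (0 : ℝ) < (j : ℝ) + 1 := by positivity
    refine le_trans ?_ (h q N M (1 / ((j : ℝ) + 1) ^ 2) hdeg hpos hcomp hN hM (by positivity) hex)
    have : ((Finset.range N).filter fun t : ℕ => ((j : ℝ) + 1) ≤ y t) ⊆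
        (Finset.range N).filter fun t : ℕ => q.eval (t : ℝ) ≤ (1 / ((j : ℝ) + 1) ^ 2) ^ k * M := by
      intro t ht
      rw [mem_filter] at ht ⊢
      refine ⟨ht.1, ?_⟩
      have h1 : ((j : ℝ) + 1) ^ (2 * (k : ℝ)) ≤ y t ^ (2 * (k : ℝ)) :=
        Real.rpow_le_rpow hj.le ht.2 (by positivity)
      have h2 : y t ^ (2 * (k : ℝ)) = M / q.eval (t : ℝ) := by
        rw [hy]
        simp only
        rw [← Real.rpow_mul (div_nonneg hM.le (hpos _).le), one_div,
          inv_mul_cancel₀ (by positivity), Real.rpow_one]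
      have h3 : ((j : ℝ) + 1) ^ (2 * (k : ℝ)) = (((j : ℝ) + 1) ^ 2) ^ k := by
        rw [← pow_mul, ← Real.rpow_natCast]
        congr 1
        push_cast
        ring
      rw [h2, h3, le_div_iff₀ (hpos _)] at h1
      rw [one_div, inv_pow, ← div_eq_inv_mul, le_div_iff₀ (by positivity)]
      linarith
    exact_mod_cast card_le_card this
  have hyle : ∀ t ∈ Finset.range N, y t ≤ 1 + ∑ j ∈ Finset.range K,
      if ((j : ℝ) + 1) ≤ y t then (1 : ℝ) else 0 := by
    intro t ht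
    have h1 : y t < ⌊y t⌋₊ + 1 := Nat.lt_floor_add_one _
    have h2 : (⌊y t⌋₊ : ℝ) ≤ ∑ j ∈ Finset.range K,
        if ((j : ℝ) + 1) ≤ y t then (1 : ℝ) else 0 := by
      calc (⌊y t⌋₊ : ℝ) = ∑ j ∈ Finset.range ⌊y t⌋₊, (1 : ℝ) := by simp
        _ = ∑ j ∈ Finset.range ⌊y t⌋₊, if ((j : ℝ) + 1) ≤ y t then (1 : ℝ) else 0 := by
            refine Finset.sum_congr rfl fun j hj => ?_
            rw [if_pos]
            rw [Finset.mem_range] at hj
            have h3 : ((j : ℝ) + 1) ≤ ⌊y t⌋₊ := by exact_mod_cast hj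
            exact h3.trans (Nat.floor_le (hy0 t))
        _ ≤ _ := by
            refine Finset.sum_le_sum_of_subset_of_nonneg ?_ ?_
            · intro j hj
              rw [Finset.mem_range] at hj ⊢
              exact lt_of_lt_of_le hj (hK t ht)
            · intro j _ _
              split_ifs <;> norm_num
    linarith
  have hN0 : (0 : ℝ) < N := by exact_mod_cast hN
  calc ∑ t ∈ Finset.range N, y t
      ≤ ∑ t ∈ Finset.range N, (1 + ∑ j ∈ Finset.range K,
          if ((j : ℝ) + 1) ≤ y t then (1 : ℝ) else 0) := Finset.sum_le_sum hyle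
    _ = N + ∑ j ∈ Finset.range K,
          (((Finset.range N).filter fun t : ℕ => ((j : ℝ) + 1) ≤ y t).card : ℝ) := by
        rw [Finset.sum_add_distrib, Finset.sum_comm]
        simp
    _ ≤ N + ∑ j ∈ Finset.range K, C * (1 / ((j : ℝ) + 1) ^ 2) * N := by
        have := Finset.sum_le_sum fun j (_ : j ∈ Finset.range K) => hcount j
        linarith
    _ = N + C * N * ∑ j ∈ Finset.range K, 1 / ((j : ℝ) + 1) ^ 2 := by
        rw [Finset.mul_sum]
        congr 1
        refine Finset.sum_congr rfl fun j _ => ?_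
        ring
    _ ≤ N + C * N * 2 := by
        have h9 : ∀ K : ℕ, ∑ j ∈ Finset.range (K + 1), 1 / ((j : ℝ) + 1) ^ 2 ≤
            2 - 1 / ((K : ℝ) + 1) := by
          intro K
          induction K with
          | zero => norm_num
          | succ K ih =>
            rw [Finset.sum_range_succ]
            have hK1 : (0 : ℝ) < (K : ℝ) + 1 := by positivity
            have h10 : 1 / (((K + 1 : ℕ) : ℝ) + 1) ^ 2 ≤
                1 / ((K : ℝ) + 1) - 1 / (((K + 1 : ℕ) : ℝ) + 1) := by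
              push_cast
              rw [div_sub_div _ _ (by positivity) (by positivity),
                div_le_div_iff₀ (by positivity) (by positivity)]
              nlinarith
            linarith
        have h13 : ∑ j ∈ Finset.range K, 1 / ((j : ℝ) + 1) ^ 2 ≤ 2 := by
          have h11 := h9 K
          rw [Finset.sum_range_succ] at h11
          have h12 : (0 : ℝ) < 1 / ((K : ℝ) + 1) := by positivity
          have h14 : (0 : ℝ) < 1 / ((K : ℝ) + 1) ^ 2 := by positivity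
          linarith
        have := mul_le_mul_of_nonneg_left h13 (show 0 ≤ C * (N : ℝ) by positivity)
        linarith
    _ = (1 + 2 * C) * N := by ring

/-- **Remez inequality in mean.** If the time is uniform up to a deficit given the label, the mean
of the logarithm of a slowly varying positive polynomial at the random time is almost as large as
the logarithm of its maximum. -/
theorem rim (k : ℕ) (hk : 1 ≤ k) (c0 : ℝ) (hc0 : 1 ≤ c0) : ∃ C : ℝ, 0 ≤ C ∧
    ∀ (Ω V : Type) [Fintype Ω] (p : Ω → ℝ) (N : ℕ) (T : Ω → ℕ) (L : Ω → V)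
      (q : V → Polynomial ℝ) (M : V → ℝ), IsLaw p → 1 ≤ N → (∀ ω, T ω < N) →
      (∀ v, (q v).natDegree ≤ k) → (∀ v x, 0 < (q v).eval x) →
      (∀ v (x y : ℝ), |x - y| ≤ 1 → (q v).eval x ≤ c0 * (q v).eval y) → (∀ v, 0 < M v) →
      (∀ v, ∃ x ∈ Set.Icc (0 : ℝ) N, M v ≤ (q v).eval x) →
      ∑ ω, p ω * Real.log (M (L ω)) ≤ ∑ ω, p ω * Real.log ((q (L ω)).eval (T ω : ℝ)) +
        2 * k * (Real.log N - CH p T L + C) := by
  obtain ⟨C, hC, h⟩ := sum_rpow_le k hk c0 hc0
  refine ⟨Real.log C, Real.log_nonneg hC, ?_⟩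
  intro Ω V _ p N T L q M hp hN hT hdeg hpos hcomp hM hex
  have hk0 : (0 : ℝ) < k := by exact_mod_cast hk
  have hN0 : (0 : ℝ) < N := by exact_mod_cast hN
  have hg := gibbs_cond hp T L (Finset.range N) (fun ω => Finset.mem_range.2 (hT ω))
    (fun v t => (M v / (q v).eval (t : ℝ)) ^ (1 / (2 * (k : ℝ))))
    (fun v t _ => Real.rpow_pos_of_pos (div_pos (hM v) (hpos v _)) _)
  have h1 : ∑ ω, p ω * Real.log (∑ t ∈ Finset.range N,
      (M (L ω) / (q (L ω)).eval (t : ℝ)) ^ (1 / (2 * (k : ℝ)))) ≤ Real.log C + Real.log N := by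
    have h2 : ∀ ω, p ω * Real.log (∑ t ∈ Finset.range N,
      (M (L ω) / (q (L ω)).eval (t : ℝ)) ^ (1 / (2 * (k : ℝ)))) ≤
        p ω * (Real.log C + Real.log N) := by
      intro ω
      refine mul_le_mul_of_nonneg_left ?_ (hp.nonneg ω)
      rw [← Real.log_mul (by linarith) hN0.ne']
      refine Real.log_le_log ?_ (h (q (L ω)) N (M (L ω)) (hdeg _) (hpos _) (hcomp _) hN (hM _)
        (hex _))
      refine Finset.sum_pos (fun t _ => Real.rpow_pos_of_pos (div_pos (hM _) (hpos _ _)) _) ?_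
      exact ⟨0, Finset.mem_range.2 hN⟩
    refine (Finset.sum_le_sum fun ω _ => h2 ω).trans ?_
    rw [← Finset.sum_mul, hp.sum_one, one_mul]
  have h3 : ∑ ω, p ω * Real.log ((M (L ω) / (q (L ω)).eval (T ω : ℝ)) ^ (1 / (2 * (k : ℝ)))) =
      (1 / (2 * (k : ℝ))) * (∑ ω, p ω * Real.log (M (L ω)) -
        ∑ ω, p ω * Real.log ((q (L ω)).eval (T ω : ℝ))) := by
    rw [← Finset.sum_sub_distrib, Finset.mul_sum]
    refine Finset.sum_congr rfl fun ω _ => ?_
    rw [Real.log_rpow (div_pos (hM _) (hpos _ _)), Real.log_div (hM _).ne' (hpos _ _).ne']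
    ring
  rw [h3] at hg
  have h4 : (1 / (2 * (k : ℝ))) * (∑ ω, p ω * Real.log (M (L ω)) -
        ∑ ω, p ω * Real.log ((q (L ω)).eval (T ω : ℝ))) ≤
      Real.log N - CH p T L + Real.log C := by linarith
  rw [one_div, inv_mul_le_iff₀ (by positivity)] at h4
  linarith

end Pool.Agent.H10.KAL
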